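import Pool.Agent.Helper90.TS.Stmts

set_option autoImplicit false

namespace Pool.Agent.Helper90.TS

section

variable {V G : Type} [Group G] [MulAction G V] {X : Ctx V G} {A B B' C C' D : Set V}

theorem dat2_ml (h : SI X A B C) (hB : B' ⊆ B) : SI X A B' C :=
  fun n b hb => h n b (hb.trans hB)

theorem dat2_sym (hCALC : ST_CALC) (hA : A.Countable) (hB : B.Countable) (hC : C.Countable)
    (h : SI X A B C) : SI X A C B :=
  (hCALC V G X A B C ∅ hA hB hC Set.countable_empty).1 h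

theorem dat2_mr (hCALC : ST_CALC) (hA : A.Countable) (hB : B.Countable) (hC : C.Countable)
    (h : SI X A B C) (hC' : C' ⊆ C) : SI X A B C' := by
  have h1 : C' ∪ C = C := Set.union_eq_self_of_subset_left hC'
  rw [← h1] at h
  exact ((hCALC V G X A B C' C hA hB (hC.mono hC') hC).2.1.1 h).1

/-- transitivity on the right -/
theorem dat2_r (hCALC : ST_CALC) (hA : A.Countable) (hB : B.Countable) (hC : C.Countable)
    (hD : D.Countable) : SI X A B (C ∪ D) ↔ SI X A B C ∧ SI X (A ∪ C) B D :=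
  (hCALC V G X A B C D hA hB hC hD).2.1

/-- transitivity on the left -/
theorem dat2_l (hCALC : ST_CALC) (hA : A.Countable) (hB : B.Countable) (hC : C.Countable)
    (hD : D.Countable) : SI X A (B ∪ D) C ↔ SI X A B C ∧ SI X (A ∪ B) D C :=
  (hCALC V G X A B C D hA hB hC hD).2.2.1

theorem dat2_rk (hCALC : ST_CALC) (hA : A.Countable) (hC : C.Countable) {ι : Type} [Finite ι]
    (b : ι → V) : X.rk (A ∪ C) b = X.rk A b ↔ SI X A (Set.range b) C :=
  (hCALC V G X A ∅ C ∅ hA Set.countable_empty hC Set.countable_empty).2.2.2.2.1 ι b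

theorem dat2_sq (g : G) (δ : ℕ → V) : tr g (Set.range δ) = Set.range (fun i => g • δ i) :=
  tr_range g δ

theorem dat2_sta (hACLB : ST_ACLB) (hA : A.Countable) {ι : Type} [Finite ι] {b : ι → V}
    (h : Sta X A b) {e : Set V} (he : e ⊆ acl G A) : Sta X (A ∪ e) b := by
  obtain ⟨D, hD, hb, hdg⟩ := h
  refine ⟨D, ov_mono X Set.subset_union_left hD, hb, ?_⟩
  rwa [(hACLB V G X A hA).2.2.2.2.2.1 e ι b he]

theorem dat2_ini_exists {δ : ℕ → V} {S T : Set V} (hT : T.Finite) (h : T ⊆ S ∪ Set.range δ) :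
    ∃ m, T ⊆ S ∪ ini δ m := by
  induction T, hT using Set.Finite.induction_on with
  | empty => exact ⟨0, Set.empty_subset _⟩
  | @insert a s _ _ ih =>
    obtain ⟨m, hm⟩ := ih (fun x hx => h (Or.inr hx))
    rcases h (Or.inl rfl : a ∈ insert a s) with ha | ⟨i, hi⟩
    · refine ⟨m, ?_⟩
      rintro x (rfl | hx)
      · exact Or.inl ha
      · exact hm hx
    · refine ⟨max m (i + 1), ?_⟩
      rintro x (rfl | hx)
      · exact Or.inr ⟨i, lt_of_lt_of_le (Nat.lt_succ_self i) (le_max_right _ _), hi⟩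
      · rcases hm hx with h1 | h1
        · exact Or.inl h1
        · exact Or.inr (ini_mono (le_max_left _ _) h1)

/-- enumeration of a finite set -/
theorem dat2_enum {T : Set V} (hT : T.Finite) : ∃ (r : ℕ) (τ : Fin r → V), Set.range τ = T := by
  obtain ⟨r, e, he⟩ := hT.fin_param
  exact ⟨r, e, he.2⟩

end

/-- step (4): one level of the new data -/
theorem dat2_step (hRKB : ST_RKB) (hEXT : ST_EXT) (hEXTS : ST_EXTS) (hCALC : ST_CALC)
    (hACLB : ST_ACLB) (hACLS : ST_ACLS) (hUNI : ST_UNI)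
    (V G : Type) [Group G] [MulAction G V] (X : Ctx V G) (A : Set V) (hA : A.Finite)
    (ι : Type) [Finite ι] (b : ι → V) (hsta : Sta X A b) (d0 d1 : ℕ → V) (n : ℕ)
    (E : Set V) (hE : E = A ∪ (ini d0 n ∪ ini d1 n))
    (hind : ∀ δ0 δ1, SqEq G (A ∪ ini d0 n) d0 δ0 → SqEq G (A ∪ ini d1 n) d1 δ1 →
      SI X E (Set.range δ0) (Set.range δ1))
    (δ0 : ℕ → V) (hδ0 : SqEq G (A ∪ ini d0 n) d0 δ0) (β : ι → V) (hβ : Eqv G A b β)
    (hβE : X.rk E β = X.rk A b) (r : ℕ) (τ : Fin r → V)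
    (hτ : Set.range τ ⊆ acl G (E ∪ Set.range δ0))
    (e0 : Set V) (he0 : e0 ⊆ acl G E) (he0f : e0.Finite) (hτsta : Sta X (E ∪ e0) τ)
    (δ1 : ℕ → V) (hδ1 : SqEq G (A ∪ ini d1 n) d1 δ1)
    (hSI : SI X (A ∪ ini d1 n) (Set.range δ1) (E ∪ Set.range τ))
    (n' : ℕ) (hn' : n ≤ n') (b4 : ι → V) (hb4 : Eqv G A b b4)
    (hb4r : X.rk (A ∪ ini δ1 n') b4 = X.rk A b) (hb4n : X.rk (A ∪ Set.range δ1) b4 ≠ X.rk A b) :
    ∃ b', Eqv G (E ∪ e0 ∪ Set.range τ) β b' ∧
      X.rk (E ∪ e0 ∪ Set.range τ ∪ ini δ1 n') b' = X.rk (E ∪ e0 ∪ Set.range τ) β ∧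
      X.rk (E ∪ e0 ∪ Set.range τ ∪ Set.range δ1) b' ≠ X.rk (E ∪ e0 ∪ Set.range τ) β := by
  have hAE : A ⊆ E := by rw [hE]; exact Set.subset_union_left
  have hEf : E.Finite := by
    rw [hE]
    exact hA.union ((ini_finite _ _).union (ini_finite _ _))
  have hE1E : ini d1 n ⊆ E := by
    rw [hE]
    exact fun x hx => Or.inr (Or.inr hx)
  have hE0E : ini d0 n ⊆ E := by
    rw [hE]
    exact fun x hx => Or.inr (Or.inl hx)
  have hAc : A.Countable := hA.countable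
  have hEc : E.Countable := hEf.countable
  have he0c : e0.Countable := he0f.countable
  have hd1c : (Set.range δ1).Countable := Set.countable_range _
  have hini1 : ini δ1 n = ini d1 n := by
    obtain ⟨g, hg, hgd⟩ := hδ1
    ext x
    constructor
    · rintro ⟨i, hi, rfl⟩
      refine ⟨i, hi, ?_⟩
      rw [← hgd i]
      exact (hg (d1 i) (Or.inr ⟨i, hi, rfl⟩)).symm
    · rintro ⟨i, hi, rfl⟩
      refine ⟨i, hi, ?_⟩
      rw [← hgd i]
      exact hg (d1 i) (Or.inr ⟨i, hi, rfl⟩)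
  have hE1 : ini d1 n ⊆ Set.range δ1 := by
    rw [← hini1]
    exact ini_subset δ1 n
  have hE1' : ini d1 n ⊆ ini δ1 n' := by
    rw [← hini1]
    exact ini_mono hn'
  -- rank inequality helper
  have rkmono : ∀ (κ : Type) [Finite κ] (c : κ → V) (S T : Set V), S ⊆ T → X.rk T c ≤ X.rk S c :=
    fun κ _ c S T h => (hRKB V G X κ c).2.2.2.1 S T h
  have rkeqv : ∀ (κ : Type) [Finite κ] (c c' : κ → V) (S : Set V), Eqv G S c c' →
      X.rk S c' = X.rk S c := fun κ _ c c' S h => (hRKB V G X κ c).2.2.2.2.2 S c' h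
  have rktr : ∀ (κ : Type) [Finite κ] (c : κ → V) (S : Set V) (g : G),
      X.rk (tr g S) (g • c) = X.rk S c := fun κ _ c S g => (hRKB V G X κ c).2.2.2.2.1 S g
  -- (4)
  obtain ⟨β2, hβ2, hβ2r⟩ := hEXT V G X (A ∪ Set.range δ1) (A ∪ Set.range δ1 ∪ E)
    ((hAc.union hd1c).union hEc) Set.subset_union_left ι b4
  have hβ2A : Eqv G A b β2 := eqv_trans hb4 (eqv_mono Set.subset_union_left hβ2)
  have h1 : X.rk (A ∪ Set.range δ1 ∪ E) β2 = X.rk (A ∪ Set.range δ1) β2 := by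
    rw [hβ2r, rkeqv ι b4 β2 _ hβ2]
  have h2 : SI X (A ∪ Set.range δ1) (Set.range β2) E :=
    (dat2_rk hCALC (hAc.union hd1c) hEc β2).1 h1
  have hbc : (Set.range β2).Countable := Set.countable_range _
  have hA1c : (A ∪ ini d1 n).Countable := hAc.union (ini_finite _ _).countable
  have hτc : (Set.range τ).Countable := Set.countable_range _
  have h3 : SI X (A ∪ ini d1 n) (Set.range δ1) E :=
    dat2_mr hCALC hA1c hd1c (hEc.union hτc) hSI Set.subset_union_left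
  have h4 : A ∪ ini d1 n ∪ Set.range δ1 = A ∪ Set.range δ1 := by
    rw [Set.union_assoc, Set.union_eq_self_of_subset_left hE1]
  have h5 : SI X (A ∪ ini d1 n) (Set.range δ1 ∪ Set.range β2) E := by
    rw [dat2_l hCALC hA1c hd1c hEc hbc]
    refine ⟨h3, ?_⟩
    rw [h4]
    exact h2
  have hinc : (ini δ1 n').Countable := (ini_finite _ _).countable
  have h6 : SI X (A ∪ ini d1 n) (ini δ1 n' ∪ Set.range β2) E :=
    dat2_ml h5 (Set.union_subset_union_left _ (ini_subset δ1 n'))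
  have h7 : SI X (A ∪ ini δ1 n') (Set.range β2) E := by
    have h8 := ((dat2_l hCALC hA1c hinc hEc hbc).1 h6).2
    rwa [Set.union_assoc, Set.union_eq_self_of_subset_left hE1'] at h8
  have h8 : X.rk (A ∪ ini δ1 n' ∪ E) β2 = X.rk A b := by
    rw [(dat2_rk hCALC (hAc.union hinc) hEc β2).2 h7, ← hb4r]
    apply rkeqv
    exact eqv_mono (Set.union_subset_union_right _ (ini_subset δ1 n')) hβ2
  have h9 : A ∪ ini δ1 n' ∪ E = E ∪ ini δ1 n' := by
    ext x
    simp only [Set.mem_union]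
    constructor
    · rintro ((h | h) | h)
      · exact Or.inl (hAE h)
      · exact Or.inr h
      · exact Or.inl h
    · rintro (h | h)
      · exact Or.inr h
      · exact Or.inl (Or.inr h)
  rw [h9] at h8
  have h10 : X.rk E β2 = X.rk A b := by
    apply le_antisymm
    · calc X.rk E β2 ≤ X.rk A β2 := rkmono ι β2 A E hAE
        _ = X.rk A b := rkeqv ι b β2 A hβ2A
    · rw [← h8]
      exact rkmono ι β2 _ _ Set.subset_union_left
  have h11 : X.rk (E ∪ Set.range δ1) β2 < X.rk A b := by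
    have h12 : A ∪ Set.range δ1 ∪ E = E ∪ Set.range δ1 := by
      ext x
      simp only [Set.mem_union]
      constructor
      · rintro ((h | h) | h)
        · exact Or.inl (hAE h)
        · exact Or.inr h
        · exact Or.inl h
      · rintro (h | h)
        · exact Or.inr h
        · exact Or.inl (Or.inr h)
    rw [← h12, hβ2r]
    refine lt_of_le_of_ne ?_ hb4n
    calc X.rk (A ∪ Set.range δ1) b4 ≤ X.rk A b4 := rkmono ι b4 _ _ Set.subset_union_left
      _ = X.rk A b := rkeqv ι b b4 A hb4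
  -- aclb for E
  have aclE : ∀ (κ : Type) [Finite κ] (c : κ → V), X.rk (E ∪ e0) c = X.rk E c :=
    fun κ _ c => (hACLB V G X E hEc).2.2.2.2.2.1 e0 κ c he0
  have hE0c : (E ∪ e0).Countable := hEc.union he0c
  have h13 : Eqv G (E ∪ e0) β β2 := hUNI V G X A (E ∪ e0) hE0c (hAE.trans Set.subset_union_left)
    ι b β β2 hsta hβ hβ2A (by rw [aclE, hβE]) (by rw [aclE, h10])
  obtain ⟨k, hk, hkβ⟩ := h13
  obtain ⟨l0, hl0, hl0SI⟩ := hEXTS V G X (E ∪ e0 ∪ Set.range β2)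
    (tr k (Set.range δ0 ∪ Set.range τ)) (Set.range δ1) (hE0c.union hbc)
    (((Set.countable_range _).union hτc).image _) hd1c
  obtain ⟨hl0a, hl0b⟩ := fx_union.1 hl0
  have hk1 : l0 * k ∈ Fx G (E ∪ e0) := mul_mem hl0a hk
  have hk1β : (l0 * k) • β = β2 := by
    rw [mul_smul, hkβ]
    exact fx_range.1 hl0b
  have S1 : SI X (E ∪ e0 ∪ Set.range β2)
      (Set.range (fun i => (l0 * k) • δ0 i) ∪ Set.range ((l0 * k) • τ)) (Set.range δ1) := by
    have h14 : tr l0 (tr k (Set.range δ0 ∪ Set.range τ)) =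
        Set.range (fun i => (l0 * k) • δ0 i) ∪ Set.range ((l0 * k) • τ) := by
      have h15 : tr l0 (tr k (Set.range δ0 ∪ Set.range τ)) =
          tr (l0 * k) (Set.range δ0 ∪ Set.range τ) := by
        ext x
        rw [mem_tr, mem_tr, mem_tr, mul_inv_rev, mul_smul]
      rw [h15, tr_union, tr_range, tr_range]
      rfl
    rwa [h14] at hl0SI
  have hA0E : A ∪ ini d0 n ⊆ E ∪ e0 :=
    (Set.union_subset hAE hE0E).trans Set.subset_union_left
  have hδ0' : SqEq G (A ∪ ini d0 n) d0 (fun i => (l0 * k) • δ0 i) :=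
    sqeq_trans hδ0 ⟨l0 * k, fx_anti hA0E hk1, fun i => rfl⟩
  have h16 := hind _ δ1 hδ0' hδ1
  have hτ' : Set.range ((l0 * k) • τ) ⊆ acl G (E ∪ Set.range (fun i => (l0 * k) • δ0 i)) := by
    have h17 : tr (l0 * k) (E ∪ Set.range δ0) = E ∪ Set.range (fun i => (l0 * k) • δ0 i) := by
      rw [tr_union, tr_fx (fx_anti Set.subset_union_left hk1), tr_range]
      rfl
    rw [← h17, (hACLB V G X (E ∪ Set.range δ0) (hEc.union (Set.countable_range _))).2.2.2.1,
      ← tr_range]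
    exact Set.image_mono hτ
  have hδ0c : (Set.range (fun i => (l0 * k) • δ0 i)).Countable := Set.countable_range _
  have h18 : SI X E (Set.range ((l0 * k) • τ)) (Set.range δ1) :=
    dat2_ml ((hACLS V G X E _ _ hEc hδ0c hd1c).2 h16) hτ'
  have hτc' : (Set.range ((l0 * k) • τ)).Countable := Set.countable_range _
  have h19 : SI X (E ∪ e0) (Set.range ((l0 * k) • τ)) (Set.range δ1) :=
    ((hACLS V G X E _ _ hEc hτc' hd1c).1 e0 he0).2 h18
  have h20 : SI X E (Set.range τ) (Set.range δ1) := by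
    have h21 := ((dat2_r hCALC hA1c hd1c hEc hτc).1 hSI).2
    rw [Set.union_eq_self_of_subset_left (Set.union_subset hAE hE1E)] at h21
    exact dat2_sym hCALC hEc hd1c hτc h21
  have h22 : SI X (E ∪ e0) (Set.range τ) (Set.range δ1) :=
    ((hACLS V G X E _ _ hEc hτc hd1c).1 e0 he0).2 h20
  have h23 : Eqv G (E ∪ e0) τ ((l0 * k) • τ) := ⟨l0 * k, hk1, rfl⟩
  have h24 : Eqv G (E ∪ e0 ∪ Set.range δ1) ((l0 * k) • τ) τ := by
    refine hUNI V G X (E ∪ e0) (E ∪ e0 ∪ Set.range δ1) (hE0c.union hd1c) Set.subset_union_left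
      (Fin r) τ _ _ hτsta h23 (eqv_refl _ _) ?_ ?_
    · rw [(dat2_rk hCALC hE0c hd1c _).2 h19]
      exact rkeqv _ _ _ _ h23
    · exact (dat2_rk hCALC hE0c hd1c _).2 h22
  obtain ⟨l, hl, hlτ⟩ := h24
  obtain ⟨hla, hlb⟩ := fx_union.1 hl
  have hF : l * (l0 * k) ∈ Fx G (E ∪ e0 ∪ Set.range τ) := by
    rw [fx_union, fx_range, mul_smul]
    exact ⟨mul_mem hla hk1, hlτ⟩
  have hFc : (E ∪ e0 ∪ Set.range ((l0 * k) • τ)).Countable := hE0c.union hτc'
  have hrkF : X.rk (E ∪ e0 ∪ Set.range τ) β = X.rk (E ∪ e0 ∪ Set.range ((l0 * k) • τ)) β2 := by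
    rw [← rktr ι β (E ∪ e0 ∪ Set.range τ) (l0 * k), hk1β, tr_union, tr_fx hk1, tr_range]
  have htrl : ∀ S : Set V, S ⊆ Set.range δ1 → X.rk (E ∪ e0 ∪ Set.range τ ∪ S) (l • β2) =
      X.rk (E ∪ e0 ∪ Set.range ((l0 * k) • τ) ∪ S) β2 := by
    intro S hS
    rw [← rktr ι β2 (E ∪ e0 ∪ Set.range ((l0 * k) • τ) ∪ S) l, tr_union, tr_union, tr_fx hla,
      tr_range, hlτ, tr_fx (fx_anti hS hlb)]
  refine ⟨l • β2, ⟨l * (l0 * k), hF, by rw [mul_smul, hk1β]⟩, ?_, ?_⟩
  · rw [htrl _ (ini_subset δ1 n'), hrkF, dat2_rk hCALC hFc hinc]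
    have ha : SI X (E ∪ e0) (Set.range β2) (ini δ1 n') := by
      rw [(hACLS V G X E _ _ hEc hbc hinc).1 e0 he0, ← dat2_rk hCALC hEc hinc]
      rw [h8, h10]
    have hb : SI X (E ∪ e0 ∪ Set.range β2) (Set.range ((l0 * k) • τ)) (ini δ1 n') :=
      dat2_mr hCALC (hE0c.union hbc) hτc' hd1c (dat2_ml S1 Set.subset_union_right)
        (ini_subset δ1 n')
    have hc := (dat2_l hCALC hE0c hbc hinc hτc').2 ⟨ha, hb⟩
    rw [Set.union_comm (Set.range β2)] at hc
    exact ((dat2_l hCALC hE0c hτc' hinc hbc).1 hc).2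
  · rw [htrl _ subset_rfl, hrkF]
    intro hcon
    rw [dat2_rk hCALC hFc hd1c] at hcon
    have hc := (dat2_l hCALC hE0c hτc' hd1c hbc).2 ⟨h19, hcon⟩
    have hd : SI X (E ∪ e0) (Set.range β2) (Set.range δ1) := dat2_ml hc Set.subset_union_right
    rw [← dat2_rk hCALC hE0c hd1c, aclE, h10] at hd
    have he : X.rk (E ∪ e0 ∪ Set.range δ1) β2 ≤ X.rk (E ∪ Set.range δ1) β2 :=
      rkmono ι β2 _ _ (Set.union_subset_union_left _ Set.subset_union_left)
    rw [hd] at he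
    exact absurd h11 (not_lt.2 he)

theorem st_DAT2 (hRKB : ST_RKB) (hRKL : ST_RKL) (hEXT : ST_EXT) (hEXTS : ST_EXTS)
    (hCALC : ST_CALC) (hACLB : ST_ACLB) (hACLS : ST_ACLS) (hSTAT : ST_STAT) (hUNI : ST_UNI) :
    ST_DAT2 := by
  intro V G _ _ X A ι _ b d d0 d1 n hdat hwit hd0 hd1 hind
  obtain ⟨b1, hb1, hb1r, hb1n⟩ := hwit
  have hAc : A.Countable := hdat.fin.countable
  have rkmono : ∀ (κ : Type) [Finite κ] (c : κ → V) (S T : Set V), S ⊆ T → X.rk T c ≤ X.rk S c :=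
    fun κ _ c S T h => (hRKB V G X κ c).2.2.2.1 S T h
  have rkeqv : ∀ (κ : Type) [Finite κ] (c c' : κ → V) (S : Set V), Eqv G S c c' →
      X.rk S c' = X.rk S c := fun κ _ c c' S h => (hRKB V G X κ c).2.2.2.2.2 S c' h
  have rktr : ∀ (κ : Type) [Finite κ] (c : κ → V) (S : Set V) (g : G),
      X.rk (tr g S) (g • c) = X.rk S c := fun κ _ c S g => (hRKB V G X κ c).2.2.2.2.1 S g
  obtain ⟨E, hE⟩ : ∃ E, E = A ∪ (ini d0 n ∪ ini d1 n) := ⟨_, rfl⟩
  have hAE : A ⊆ E := by rw [hE]; exact Set.subset_union_left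
  have hEf : E.Finite := by
    rw [hE]
    exact hdat.fin.union ((ini_finite _ _).union (ini_finite _ _))
  have hEc : E.Countable := hEf.countable
  rw [← hE] at hind
  -- (1)
  obtain ⟨g0, hg0, hg0d⟩ := id hd0
  have hg0d' : (fun i => g0 • d i) = d0 := funext hg0d
  have hb2 : Eqv G A b (g0 • b1) := eqv_trans hb1 ⟨g0, hg0, rfl⟩
  have hb2r : X.rk (A ∪ ini d0 n) (g0 • b1) = X.rk A b := by
    rw [← hb1r, ← rktr ι b1 (A ∪ ini d n) g0, tr_union, tr_fx hg0, tr_ini, hg0d']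
  have hb2n : X.rk (A ∪ Set.range d0) (g0 • b1) ≠ X.rk A b := by
    have h1 : X.rk (A ∪ Set.range d0) (g0 • b1) = X.rk (A ∪ Set.range d) b1 := by
      rw [← rktr ι b1 (A ∪ Set.range d) g0, tr_union, tr_fx hg0, dat2_sq, hg0d']
    rw [h1]
    exact hb1n
  obtain ⟨h, hh, hhSI⟩ := hEXTS V G X (A ∪ ini d0 n) (Set.range (g0 • b1) ∪ Set.range d0) E
    (hAc.union (ini_finite _ _).countable) ((Set.countable_range _).union (Set.countable_range _))
    hEc
  obtain ⟨hha, hhb⟩ := fx_union.1 hh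
  have hδ0 : SqEq G (A ∪ ini d0 n) d0 (fun i => h • d0 i) := ⟨h, hh, fun i => rfl⟩
  have hβ : Eqv G A b (h • (g0 • b1)) := eqv_trans hb2 ⟨h, hha, rfl⟩
  have hβE : X.rk E (h • (g0 • b1)) = X.rk A b := by
    have h1 : SI X (A ∪ ini d0 n) (Set.range (h • (g0 • b1))) E := by
      rw [tr_union, tr_range] at hhSI
      exact dat2_ml hhSI Set.subset_union_left
    have h2 := (dat2_rk hCALC (hAc.union (ini_finite d0 n).countable) hEc _).2 h1
    have h3 : A ∪ ini d0 n ∪ E = E := by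
      apply Set.union_eq_self_of_subset_left
      rw [hE]
      rintro x (hx | hx)
      · exact Or.inl hx
      · exact Or.inr (Or.inl hx)
    rw [h3] at h2
    rw [h2, ← hb2r]
    exact rkeqv ι _ _ _ ⟨h, hh, rfl⟩
  have hβlt : X.rk (E ∪ Set.range (fun i => h • d0 i)) (h • (g0 • b1)) < X.rk A b := by
    have h1 : X.rk (A ∪ Set.range (fun i => h • d0 i)) (h • (g0 • b1)) =
        X.rk (A ∪ Set.range d0) (g0 • b1) := by
      rw [← rktr ι (g0 • b1) (A ∪ Set.range d0) h, tr_union, tr_fx hha, dat2_sq]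
    calc X.rk (E ∪ Set.range (fun i => h • d0 i)) (h • (g0 • b1))
        ≤ X.rk (A ∪ Set.range (fun i => h • d0 i)) (h • (g0 • b1)) :=
          rkmono ι _ _ _ (Set.union_subset_union_left _ hAE)
      _ = X.rk (A ∪ Set.range d0) (g0 • b1) := h1
      _ < X.rk A b := by
          refine lt_of_le_of_ne ?_ hb2n
          rw [← rkeqv ι b _ A hb2]
          exact rkmono ι _ _ _ Set.subset_union_left
  obtain ⟨δ0, hδ0e⟩ : ∃ δ0, δ0 = (fun i => h • d0 i) := ⟨_, rfl⟩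
  obtain ⟨β, hβe⟩ : ∃ β, β = h • (g0 • b1) := ⟨_, rfl⟩
  rw [← hδ0e] at hδ0 hβlt
  rw [← hβe] at hβ hβE hβlt
  clear hδ0e hβe hhSI
  -- (2)
  have hδ0c : (Set.range δ0).Countable := Set.countable_range _
  obtain ⟨A0, hA0, hA0f, hA0r⟩ := hRKL V G X (E ∪ Set.range δ0) (hEc.union hδ0c) ι β
  obtain ⟨m, hm⟩ := dat2_ini_exists hA0f hA0
  have hmr : X.rk (E ∪ ini δ0 m) β = X.rk (E ∪ Set.range δ0) β := by
    apply le_antisymm
    · rw [← hA0r]
      exact rkmono ι _ _ _ hm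
    · exact rkmono ι _ _ _ (Set.union_subset_union_right _ (ini_subset _ _))
  have hEmc : (E ∪ ini δ0 m).Countable := hEc.union (ini_finite _ _).countable
  obtain ⟨e1, he1, he1f, he1s⟩ := hSTAT V G X (E ∪ ini δ0 m) hEmc ι β
  obtain ⟨r, τ, hτ⟩ := dat2_enum ((ini_finite δ0 m).union he1f)
  obtain ⟨e0, he0, he0f, he0s⟩ := hSTAT V G X E hEc (Fin r) τ
  have hset : E ∪ e0 ∪ Set.range τ = E ∪ ini δ0 m ∪ e1 ∪ e0 := by
    rw [hτ]
    ext x
    simp only [Set.mem_union]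
    tauto
  have hEme : (E ∪ ini δ0 m ∪ e1).Countable := hEmc.union he1f.countable
  have he0' : e0 ⊆ acl G (E ∪ ini δ0 m ∪ e1) := by
    have h1 := (hACLB V G X E hEc).2.2.1 (E ∪ ini δ0 m ∪ e1)
      (Set.subset_union_left.trans Set.subset_union_left)
    exact he0.trans h1
  have hFsta : Sta X (E ∪ e0 ∪ Set.range τ) β := by
    rw [hset]
    exact dat2_sta hACLB hEme he1s he0'
  have hFrk : X.rk (E ∪ e0 ∪ Set.range τ) β < X.rk A b := by
    rw [hset, (hACLB V G X _ hEme).2.2.2.2.2.1 e0 ι β he0',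
      (hACLB V G X _ hEmc).2.2.2.2.2.1 e1 ι β he1, hmr]
    exact hβlt
  have hτacl : Set.range τ ⊆ acl G (E ∪ Set.range δ0) := by
    rw [hτ]
    have h1 := (hACLB V G X (E ∪ ini δ0 m) hEmc)
    have h2 := h1.2.2.1 (E ∪ Set.range δ0) (Set.union_subset_union_right _ (ini_subset _ _))
    refine Set.union_subset ?_ (he1.trans h2)
    exact (Set.subset_union_right.trans h1.1).trans h2
  -- (3)
  have hτc : (Set.range τ).Countable := Set.countable_range _
  obtain ⟨h1, hh1, hh1SI⟩ := hEXTS V G X (A ∪ ini d1 n) (Set.range d1) (E ∪ Set.range τ)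
    (hAc.union (ini_finite _ _).countable) (Set.countable_range _) (hEc.union hτc)
  rw [dat2_sq] at hh1SI
  have hδ1 : SqEq G (A ∪ ini d1 n) d1 (fun i => h1 • d1 i) := ⟨h1, hh1, fun i => rfl⟩
  have hdδ1 : SqEq G A d (fun i => h1 • d1 i) :=
    sqeq_trans hd1 (sqeq_mono Set.subset_union_left hδ1)
  refine ⟨E ∪ e0 ∪ Set.range τ, β, (fun i => h1 • d1 i), hdδ1,
    ⟨(hEf.union he0f).union (Set.finite_range _), hFsta, ?_⟩, hFrk⟩
  intro N
  obtain ⟨n', hn', b3, hb3, hb3r, hb3n⟩ := hdat.inf (max N n)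
  obtain ⟨g4, hg4, hg4d⟩ := id hdδ1
  have hg4d' : (fun i => g4 • d i) = (fun i => h1 • d1 i) := funext hg4d
  refine ⟨n', (le_max_left _ _).trans hn', ?_⟩
  refine dat2_step hRKB hEXT hEXTS hCALC hACLB hACLS hUNI V G X A hdat.fin ι b hdat.sta d0 d1 n E hE
    hind δ0 hδ0 β hβ hβE r τ hτacl e0 he0 he0f he0s (fun i => h1 • d1 i) hδ1 hh1SI n'
    ((le_max_right _ _).trans hn') (g4 • b3) (eqv_trans hb3 ⟨g4, hg4, rfl⟩) ?_ ?_
  · rw [← hb3r, ← rktr ι b3 (A ∪ ini d n') g4, tr_union, tr_fx hg4, tr_ini, hg4d']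
  · have h5 : X.rk (A ∪ Set.range (fun i => h1 • d1 i)) (g4 • b3) = X.rk (A ∪ Set.range d) b3 := by
      rw [← rktr ι b3 (A ∪ Set.range d) g4, tr_union, tr_fx hg4, dat2_sq, hg4d']
    rw [h5]
    exact hb3n

end Pool.Agent.Helper90.TS
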