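import Pool.Agent.Helper90.TS.Stmts

set_option autoImplicit false

namespace Pool.Agent.Helper90.TS

theorem st_DCLF (hFSUP : ST_FSUP) : ST_DCLF := by
  intro V G _ _ X κ ι _ _ u b hub
  have h1 : X.Ov (Set.range u) ({b} : Set (ι → V)) := by
    refine ⟨(ov_singleton (X := X) b).1, ?_⟩
    intro g hg x hx
    rw [Set.mem_singleton_iff] at hx
    rw [hx, Set.mem_singleton_iff]
    exact hub g (fx_range.1 hg)
  obtain ⟨m, a, E, ha, hE, hbE⟩ := hFSUP V G X (Set.range u) (Set.countable_range u) ι {b} h1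
  have ha' : ∀ j, ∃ i, u i = a j := fun j => ha ⟨j, rfl⟩
  choose σ hσ using ha'
  have hσ' : u ∘ σ = a := funext hσ
  obtain ⟨Bu, hBu, hu⟩ := ov_sort (X := X) u
  obtain ⟨Bb, hBb, hb⟩ := ov_sort (X := X) b
  have hW0 := ov_sub hE (ov_prod hBu hBb) (Sum.map σ id : Fin m ⊕ ι → κ ⊕ ι)
  obtain ⟨W0, hW0e⟩ : ∃ W0, W0 = {x : κ ⊕ ι → V |
      x ∈ {x : κ ⊕ ι → V | x ∘ Sum.inl ∈ Bu ∧ x ∘ Sum.inr ∈ Bb} ∧
        x ∘ (Sum.map σ id : Fin m ⊕ ι → κ ⊕ ι) ∈ E} := ⟨_, rfl⟩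
  rw [← hW0e] at hW0
  have hmem : ∀ v y, Sum.elim v y ∈ W0 ↔ (v ∈ Bu ∧ y ∈ Bb) ∧ Sum.elim (v ∘ σ) y ∈ E := by
    intro v y
    rw [hW0e]
    have h2 : Sum.elim v y ∘ (Sum.map σ id : Fin m ⊕ ι → κ ⊕ ι) = Sum.elim (v ∘ σ) y := by
      ext i
      cases i <;> rfl
    simp only [Set.mem_ofPred_eq, Sum.elim_comp_inl, Sum.elim_comp_inr, h2]
  have hW1 := ov_sub hW0 (ov_prod hW0 hBb)
    (Sum.elim (Sum.inl ∘ Sum.inl) Sum.inr : κ ⊕ ι → (κ ⊕ ι) ⊕ ι)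
  have hD1 := ov_eqs hW1 (Sum.inl ∘ Sum.inr : ι → (κ ⊕ ι) ⊕ ι) Sum.inr
  have hW := ov_all hW0 hW1 hD1
  refine ⟨_, hW, ?_, ?_⟩
  · refine ⟨?_, ?_⟩
    · rw [hmem]
      refine ⟨⟨hu, hb⟩, ?_⟩
      rw [hσ']
      have h3 : b ∈ ({b} : Set (ι → V)) := rfl
      rw [hbE] at h3
      exact h3
    · intro y hy
      refine ⟨hy, ?_⟩
      have h3 : Sum.elim u y ∈ W0 := by
        have h4 := hy.2
        convert h4 using 1
        ext i
        cases i <;> rfl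
      rw [hmem, hσ'] at h3
      have h5 : y ∈ ({b} : Set (ι → V)) := by
        rw [hbE]
        exact h3.2
      rw [Set.mem_singleton_iff] at h5
      rw [h5]
      rfl
  · intro v y y' hy hy'
    have h2 := hy.2 y' (by
      refine ⟨⟨?_, ?_⟩, ?_⟩
      · rw [Sum.elim_comp_inl]
        exact hy.1
      · rw [Sum.elim_comp_inr]
        exact ((hmem v y').1 hy'.1).1.2
      · have h3 := hy'.1
        convert h3 using 1
        ext i
        cases i <;> rfl)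
    exact h2.2

end Pool.Agent.Helper90.TS
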